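import Pool.Agent.helper45.SGC.Spec

/-!
# Row DSC: description of a circuit by wires and symmetric functions
-/

set_option autoImplicit false

namespace Pool.Agent.SGC

open Finset Pool.Agent.helper38.Neg Pool.Agent.helper55.NT

theorem DSC_gate {w : ℕ} (g : Gate w) :
    ∃ (a b : Fin (w + 1)) (F : Bool → Bool → Bool),
      (((a : ℕ) < w ∧ (b : ℕ) < w) ∨ ∃ d, F = fun _ _ => d) ∧ (∀ p q, F p q = F q p) ∧
      ∀ v : Fin w → Bool, g.eval v = F ((Fin.snoc (α := fun _ => Bool) v (g.eval v) : Fin (w + 1) → Bool) a)
        ((Fin.snoc (α := fun _ => Bool) v (g.eval v) : Fin (w + 1) → Bool) b) := by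
  cases g with
  | const d =>
    exact ⟨Fin.last w, Fin.last w, fun _ _ => d, Or.inr ⟨d, rfl⟩, fun _ _ => rfl, fun _ => rfl⟩
  | and i j =>
    refine ⟨i.castSucc, j.castSucc, fun p q => p && q, Or.inl ⟨i.isLt, j.isLt⟩,
      fun p q => Bool.and_comm p q, fun v => ?_⟩
    rw [Fin.snoc_castSucc (α := fun _ => Bool), Fin.snoc_castSucc (α := fun _ => Bool)]
    rfl
  | or i j =>
    refine ⟨i.castSucc, j.castSucc, fun p q => p || q, Or.inl ⟨i.isLt, j.isLt⟩,
      fun p q => Bool.or_comm p q, fun v => ?_⟩
    rw [Fin.snoc_castSucc (α := fun _ => Bool), Fin.snoc_castSucc (α := fun _ => Bool)]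
    rfl
  | not i =>
    refine ⟨i.castSucc, i.castSucc, fun p q => !(p && q), Or.inl ⟨i.isLt, i.isLt⟩,
      fun p q => congrArg not (Bool.and_comm p q), fun v => ?_⟩
    rw [Fin.snoc_castSucc (α := fun _ => Bool)]
    show (!(v i)) = !(v i && v i)
    rw [Bool.and_self]

theorem DSC : DSC_stmt := by
  intro n s C
  induction C with
  | nil =>
    refine ⟨fun j => j.elim0, fun j => j.elim0, fun j => j.elim0, fun j => j.elim0,
      fun j => j.elim0, fun x => ⟨fun i => ?_, fun j => j.elim0⟩⟩
    rfl
  | @snoc s C g ih =>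
    obtain ⟨a, b, F, h1, h2, h3⟩ := ih
    obtain ⟨a', b', F', k1, k2, k3⟩ := DSC_gate g
    refine ⟨Fin.snoc (α := fun _ => Fin (n + (s + 1))) (fun j => (a j).castSucc) a',
      Fin.snoc (α := fun _ => Fin (n + (s + 1))) (fun j => (b j).castSucc) b',
      Fin.snoc (α := fun _ => Bool → Bool → Bool) F F', ?_, ?_, ?_⟩
    · intro j
      induction j using Fin.lastCases with
      | last =>
        rw [Fin.snoc_last (α := fun _ => Fin (n + (s + 1))), Fin.snoc_last (α := fun _ => Fin (n + (s + 1))),
          Fin.snoc_last (α := fun _ => Bool → Bool → Bool)]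
        exact k1
      | cast j =>
        rw [Fin.snoc_castSucc (α := fun _ => Fin (n + (s + 1))),
          Fin.snoc_castSucc (α := fun _ => Fin (n + (s + 1))),
          Fin.snoc_castSucc (α := fun _ => Bool → Bool → Bool)]
        exact h1 j
    · intro j
      induction j using Fin.lastCases with
      | last =>
        rw [Fin.snoc_last (α := fun _ => Bool → Bool → Bool)]
        exact k2
      | cast j =>
        rw [Fin.snoc_castSucc (α := fun _ => Bool → Bool → Bool)]
        exact h2 j
    · intro x
      have hv : ∀ k : Fin (n + s), (Circuit.snoc C g).val x k.castSucc = C.val x k := fun k =>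
        Fin.snoc_castSucc (α := fun _ => Bool) _ _ k
      refine ⟨fun i => ?_, fun j => ?_⟩
      · exact (hv (Fin.castAdd s i)).trans ((h3 x).1 i)
      · induction j using Fin.lastCases with
        | last =>
          rw [Fin.snoc_last (α := fun _ => Fin (n + (s + 1))), Fin.snoc_last (α := fun _ => Fin (n + (s + 1))),
            Fin.snoc_last (α := fun _ => Bool → Bool → Bool)]
          have h5 : (Circuit.snoc C g).val x (Fin.natAdd n (Fin.last s)) = g.eval (C.val x) :=
            Fin.snoc_last (α := fun _ => Bool) _ _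
          rw [h5]
          exact k3 (C.val x)
        | cast j =>
          rw [Fin.snoc_castSucc (α := fun _ => Fin (n + (s + 1))),
            Fin.snoc_castSucc (α := fun _ => Fin (n + (s + 1))),
            Fin.snoc_castSucc (α := fun _ => Bool → Bool → Bool)]
          have h5 : (Circuit.snoc C g).val x (Fin.natAdd n j.castSucc) = C.val x (Fin.natAdd n j) :=
            hv (Fin.natAdd n j)
          rw [h5, hv, hv]
          exact (h3 x).2 j

end Pool.Agent.SGC
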