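import Pool.Agent.helper45.SGC.Spec

/-!
# SGC, row LBD: the lower bound
-/

set_option autoImplicit false

namespace Pool.Agent.SGC

open Finset Pool.Agent.helper38.Neg Pool.Agent.helper55.NT

theorem LBD (hSTB : STB_stmt) (hVEX : VEX_stmt) (hCOR : COR_stmt) (hNUM : NUM_stmt) : LBD_stmt := by
  intro n s V C hS hV
  obtain ⟨H, hH⟩ := hSTB n s V C hS
  have hcard : Nat.card V = 2 ^ Module.finrank (ZMod 2) V := by
    rw [Module.natCard_eq_pow_finrank (K := ZMod 2), Nat.card_zmod]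
  rw [hcard] at hV
  obtain ⟨m, hm, hm15, hm5⟩ := hNUM s _ hV
  obtain ⟨v, hv, hy⟩ := hVEX (tv n) s m V H hm (fun g => ⟨(hH g).1, (hH g).2.1⟩) hm15 hm5
  obtain ⟨f, hf⟩ := hCOR n s (2 * (5 * m)) (2 * m) C H v (by omega) (by omega) (fun g => (hH g).2.2) hv hy
  exact ⟨2 * (5 * m), v, f, hv, hf⟩

end Pool.Agent.SGC
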